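import Pool.Agent.K3h22.EX.Alg
import Pool.Agent.W333.ECV.A

/-! EX project: from the variety to the prime ideal (`S_DER`). -/

set_option autoImplicit false

namespace Pool.Agent.K3h60.EX

open MvPolynomial Filter Topology Metric Set Pool.Agent.K3h22.EX

theorem mem_range_of_vars {n s : ℕ} (ι : Fin s → Fin n) (B : Finset (Fin n)) (j : Fin n)
    (f : MvPolynomial (Fin n ⊕ Fin n) ℂ)
    (hf : (f.vars : Set (Fin n ⊕ Fin n)) ⊆ (insert (Sum.inr j) (coords ι B) : Finset (Fin n ⊕ Fin n))) :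
    ∃ g : Polynomial (MvPolynomial {i // i ∈ B} (MvPolynomial (Fin s) ℂ)),
      g.eval₂ (em ι Subtype.val) (X (Sum.inr j)) = f := by
  have h1 := MvPolynomial.mem_supported.2 hf
  unfold MvPolynomial.supported at h1
  refine Algebra.adjoin_induction (p := fun f _ =>
    ∃ g : Polynomial (MvPolynomial {i // i ∈ B} (MvPolynomial (Fin s) ℂ)),
      g.eval₂ (em ι Subtype.val) (X (Sum.inr j)) = f) ?_ ?_ ?_ ?_ h1
  · rintro x ⟨v, hv, rfl⟩
    rw [Finset.mem_coe, Finset.mem_insert, coords, Finset.mem_union, Finset.mem_image,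
      Finset.mem_image] at hv
    rcases hv with rfl | ⟨a, -, rfl⟩ | ⟨i, hi, rfl⟩
    · exact ⟨Polynomial.X, by simp⟩
    · exact ⟨Polynomial.C (C (X a)), by simp [Pool.Agent.K3h22.EX.em]⟩
    · exact ⟨Polynomial.C (X ⟨i, hi⟩), by simp [Pool.Agent.K3h22.EX.em]⟩
  · intro r
    exact ⟨Polynomial.C (C (C r)), by simp [Pool.Agent.K3h22.EX.em]⟩
  · rintro x y - - ⟨g, hg⟩ ⟨h, hh⟩
    exact ⟨g + h, by rw [Polynomial.eval₂_add, hg, hh]⟩
  · rintro x y - - ⟨g, hg⟩ ⟨h, hh⟩
    exact ⟨g * h, by rw [Polynomial.eval₂_mul, hg, hh]⟩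

theorem t_DER : S_DER := by
  intro n s P V hP hV hne ι hι
  obtain ⟨p₀, hp₀⟩ := hne
  have hp0 : (∀ f ∈ P, eval p₀ f = 0) ∧ ∀ j : Fin n, p₀ (Sum.inr j) ≠ 0 := by
    rw [hV] at hp₀
    exact hp₀
  have h1 : ∀ f : MvPolynomial (Fin n ⊕ Fin n) ℂ, (∀ p ∈ V, eval p f = 0) → f ∈ P := by
    intro f hf
    refine Pool.Agent.W333.ECV.nullst P hP (∏ j : Fin n, X (Sum.inr j)) ?_ f ?_
    · intro h
      have := hp0.1 _ h
      rw [map_prod, Finset.prod_eq_zero_iff] at this
      obtain ⟨j, -, hj⟩ := this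
      rw [eval_X] at hj
      exact hp0.2 j hj
    · intro p h2 h3
      refine hf p ?_
      rw [hV]
      refine ⟨h2, fun j hj => h3 ?_⟩
      rw [map_prod]
      exact Finset.prod_eq_zero (Finset.mem_univ j) (by rw [eval_X, hj])
  refine ⟨h1, ?_, ?_, ?_, ?_⟩
  · intro i p hp
    apply h1
    intro u hu
    rw [map_sub, eval_X, eval_rename, hp u hu]
    exact sub_self _
  · intro i hi
    exact hp0.2 i (by simpa using hp0.1 _ hi)
  · intro B hB g hg
    have h2 : em ι Subtype.val g = 0 := by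
      refine hB _ ?_ ?_
      · intro v hv
        have h3 := vars_em ι Subtype.val g (Finset.mem_coe.2 hv)
        rw [coords, Finset.mem_union, Finset.mem_image, Finset.mem_image]
        rcases h3 with ⟨a, rfl⟩ | ⟨i, rfl⟩
        · exact Or.inl ⟨a, Finset.mem_univ a, rfl⟩
        · exact Or.inr ⟨i.1, i.2, rfl⟩
      · intro p hp
        rw [hV] at hp
        exact hp.1 _ hg
    exact em_inj hι Subtype.val_injective (by rw [h2, map_zero])
  · intro B j h2
    rw [Indep] at h2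
    push Not at h2
    obtain ⟨f, hf1, hf2, hf3⟩ := h2
    obtain ⟨g, hg⟩ := mem_range_of_vars ι B j f (by exact_mod_cast hf1)
    refine ⟨g, ?_, ?_⟩
    · rintro rfl
      rw [Polynomial.eval₂_zero] at hg
      exact hf3 hg.symm
    · rw [hg]
      exact h1 f hf2

end Pool.Agent.K3h60.EX
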