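import Pool.Agent.K3h22.EX.Stm

/-!
# Holomorphic logarithms and the theorem of Borel and Carathéodory in several variables
-/

set_option autoImplicit false

namespace Pool.Agent.K3h60.EX

open Filter Topology Metric Set Pool.Agent.K3h22.EX

theorem t_BC : S_BC := by
  intro s ζ ε η L hε hη hL hre v hv w hw
  rcases eq_or_ne v w with rfl | hne
  · simp
  have hn : 0 < ‖v - w‖ := norm_pos_iff.mpr (sub_ne_zero.mpr hne)
  have hvw : ‖v - w‖ < ε / 2 := by
    rw [mem_ball, dist_eq_norm] at hv hw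
    calc ‖v - w‖ = ‖(v - ζ) - (w - ζ)‖ := by congr 1; abel
      _ ≤ ‖v - ζ‖ + ‖w - ζ‖ := norm_sub_le _ _
      _ < ε / 2 := by linarith
  set e : Fin s → ℂ := ((‖v - w‖ : ℂ))⁻¹ • (v - w) with he
  have hen : ‖e‖ = 1 := by
    rw [he, norm_smul, norm_inv, Complex.norm_real, norm_norm, inv_mul_cancel₀ hn.ne']
  have hmaps : ∀ t ∈ ball (0 : ℂ) (3 * ε / 4), w + t • e ∈ ball ζ ε := by
    intro t ht
    rw [mem_ball_zero_iff] at ht
    rw [mem_ball, dist_eq_norm] at hw ⊢
    calc ‖w + t • e - ζ‖ = ‖(w - ζ) + t • e‖ := by congr 1; abel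
      _ ≤ ‖w - ζ‖ + ‖t • e‖ := norm_add_le _ _
      _ = ‖w - ζ‖ + ‖t‖ := by rw [norm_smul, hen, mul_one]
      _ < ε := by linarith
  have hwb : w ∈ ball ζ ε := ball_subset_ball (by linarith) hw
  have hg : DifferentiableOn ℂ (fun t : ℂ => L (w + t • e) - L w) (ball 0 (3 * ε / 4)) := by
    refine DifferentiableOn.sub_const ?_ _
    refine hL.comp (g := L) (f := fun t : ℂ => w + t • e) ?_ hmaps
    exact ((differentiable_id.smul_const e).const_add w).differentiableOn
  have hg1 : MapsTo (fun t : ℂ => L (w + t • e) - L w) (ball 0 (3 * ε / 4))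
      {z | z.re ≤ 2 * η} := by
    intro t ht
    have h1 := abs_le.mp (hre _ (hmaps t ht))
    have h2 := abs_le.mp (hre _ hwb)
    simp only [mem_ofPred_eq, Complex.sub_re]
    linarith [h1.2, h2.1]
  have hz : ((‖v - w‖ : ℝ) : ℂ) ∈ ball (0 : ℂ) (3 * ε / 4) := by
    rw [mem_ball_zero_iff, Complex.norm_real, norm_norm]
    linarith
  have h1 := Complex.borelCaratheodory_zero (M := 2 * η) (by linarith) hg hg1 (by linarith) hz
    (by simp)
  have h2 : w + ((‖v - w‖ : ℝ) : ℂ) • e = v := by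
    rw [he, smul_smul, mul_inv_cancel₀ (by exact_mod_cast hn.ne'), one_smul]
    abel
  rw [h2, Complex.norm_real, norm_norm] at h1
  refine h1.trans ?_
  have h3 : ε / 4 ≤ 3 * ε / 4 - ‖v - w‖ := by linarith
  calc 2 * (2 * η) * ‖v - w‖ / (3 * ε / 4 - ‖v - w‖) ≤ 2 * (2 * η) * ‖v - w‖ / (ε / 4) := by
        gcongr
    _ = 16 * η / ε * ‖v - w‖ := by field_simp; ring
    _ ≤ 100 * η / ε * ‖v - w‖ := by gcongr; norm_num

theorem t_LOG : S_LOG := by
  intro s U f hU hconv hf hf0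
  rcases U.eq_empty_or_nonempty with rfl | hne
  · exact ⟨fun _ => 0, by simp, by simp⟩
  have hsc : IsSimplyConnected U := by
    have := hconv.contractibleSpace hne
    exact SimplyConnectedSpace.ofContractible U
  obtain ⟨L, hLc, hL⟩ := Complex.exists_continuousOn_eqOn_exp_comp hsc hU hf.continuousOn
    (by rintro ⟨v, hv, h0⟩; exact hf0 v hv h0)
  have hexp : ∀ v ∈ U, Complex.exp (L v) = f v := fun v hv => hL hv
  refine ⟨L, ?_, hexp⟩
  intro v₀ hv₀
  apply DifferentiableAt.differentiableWithinAt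
  have hUn : U ∈ 𝓝 v₀ := hU.mem_nhds hv₀
  have hLat : ContinuousAt L v₀ := hLc.continuousAt hUn
  have h1 : ∀ᶠ v in 𝓝 v₀, ‖L v - L v₀‖ < Real.pi := by
    have h2 : Tendsto (fun v => ‖L v - L v₀‖) (𝓝 v₀) (𝓝 ‖L v₀ - L v₀‖) :=
      ((hLat.sub continuousAt_const).norm).tendsto
    rw [sub_self, norm_zero] at h2
    exact h2.eventually (gt_mem_nhds Real.pi_pos)
  have h3 : L =ᶠ[𝓝 v₀] fun v => L v₀ + Complex.log (f v / f v₀) := by
    filter_upwards [h1, hUn] with v hv hvU
    have h4 := (Complex.abs_im_le_norm (L v - L v₀)).trans_lt hv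
    rw [abs_lt] at h4
    rw [← hexp v hvU, ← hexp v₀ hv₀, ← Complex.exp_sub, Complex.log_exp h4.1 h4.2.le]
    ring
  refine DifferentiableAt.congr_of_eventuallyEq ?_ h3
  have h5 : DifferentiableAt ℂ f v₀ := hf.differentiableAt hUn
  have h6 : DifferentiableAt ℂ (fun v => f v / f v₀) v₀ := by
    simp only [div_eq_mul_inv]
    exact h5.mul_const _
  have h7 : DifferentiableAt ℂ (fun v => Complex.log (f v / f v₀)) v₀ := by
    refine h6.clog ?_
    rw [div_self (hf0 v₀ hv₀)]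
    exact Complex.one_mem_slitPlane
  exact h7.const_add _

end Pool.Agent.K3h60.EX
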